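import Pool.Agent.Helper5.MMRepB

set_option autoImplicit false

/-!
# Different replicas stay different after a finite toggle (deduction)
-/

namespace Pool.Agent.Helper40.MM

open MeasureTheory ProbabilityTheory Filter Topology Pool.Agent.Helper60.TJ Pool.Agent.Helper61.MM Pool.Agent.Helper5.MM
open scoped symmDiff

variable {lam : Measure ℝ} {κ : Kernel WT Rs} {R : Measure Om}

/-- different replicas stay different; `hfp` is `far_pat`, `hns` is `no_switch` -/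
theorem barrier_of (D : Finset Ed)
    (hfp : ∀ (F : Finset Ed) {ε : ℝ}, 0 < ε → ∀ᶠ u : Vx in cofinite, ∀ i : Fin 3, (i = 0 ∨ i = 1) →
      R {z | z ∈ Df 0 1 g0 ∧ ¬ ((∀ e ∈ trE u F, uu (rp z i) (tg g0 D) e = uu (rp z 0) g0 e) ∨
        (∀ e ∈ trE u F, uu (rp z i) (tg g0 D) e = uu (rp z 1) g0 e))} ≤ ENNReal.ofReal ε)
    (hns : ∀ {ε : ℝ}, 0 < ε → ∃ L : ℕ, ∀ L' ≥ L, ∀ u : Vx, ∀ i j : Fin 3, i ≠ j →
      R {z | z ∈ Df i j g0 ∧ ∀ e ∈ trE u (ebox L'), uu (rp z i) (tg g0 D) e = uu (rp z j) g0 e}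
        ≤ ENNReal.ofReal ε) :
    R (Df 0 1 g0 \ Df 0 1 (tg g0 D)) = 0 := by
  have key : ∀ ε : ℝ, 0 < ε →
      R (Df 0 1 g0 \ Df 0 1 (tg g0 D)) ≤ ENNReal.ofReal ε := by
    intro ε hε
    have hε3 : 0 < ε / 3 := by positivity
    obtain ⟨L, hL⟩ := hns hε3
    obtain ⟨u, hu⟩ := (hfp (ebox L) hε3).exists
    have h0 := hu 0 (Or.inl rfl)
    have h1 := hL L le_rfl u 0 1 (by decide)
    have h2 := hL L le_rfl u 1 0 (by decide)
    have hsub : Df 0 1 g0 \ Df 0 1 (tg g0 D) ⊆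
        {z | z ∈ Df 0 1 g0 ∧
          ¬ ((∀ e ∈ trE u (ebox L), uu (rp z 0) (tg g0 D) e = uu (rp z 0) g0 e) ∨
          (∀ e ∈ trE u (ebox L), uu (rp z 0) (tg g0 D) e = uu (rp z 1) g0 e))} ∪
        ({z | z ∈ Df 0 1 g0 ∧
          ∀ e ∈ trE u (ebox L), uu (rp z 0) (tg g0 D) e = uu (rp z 1) g0 e} ∪
        {z | z ∈ Df 1 0 g0 ∧
          ∀ e ∈ trE u (ebox L), uu (rp z 1) (tg g0 D) e = uu (rp z 0) g0 e}) := by
      intro z hz
      have hz1 : uu (rp z 0) g0 ≠ uu (rp z 1) g0 := hz.1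
      have hz2 : uu (rp z 0) (tg g0 D) = uu (rp z 1) (tg g0 D) := by
        by_contra h
        exact hz.2 h
      by_cases hA : ∀ e ∈ trE u (ebox L), uu (rp z 0) (tg g0 D) e = uu (rp z 0) g0 e
      · refine Or.inr (Or.inr ⟨fun h => hz1 h.symm, fun e he => ?_⟩)
        rw [← hz2]
        exact hA e he
      · by_cases hB : ∀ e ∈ trE u (ebox L), uu (rp z 0) (tg g0 D) e = uu (rp z 1) g0 e
        · exact Or.inr (Or.inl ⟨hz1, hB⟩)
        · exact Or.inl ⟨hz1, fun h => h.elim hA hB⟩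
    calc R (Df 0 1 g0 \ Df 0 1 (tg g0 D)) ≤ _ := measure_mono hsub
      _ ≤ ENNReal.ofReal (ε / 3) + (ENNReal.ofReal (ε / 3) + ENNReal.ofReal (ε / 3)) :=
          (measure_union_le _ _).trans
            (add_le_add h0 ((measure_union_le _ _).trans (add_le_add h1 h2)))
      _ = ENNReal.ofReal ε := by
          rw [← ENNReal.ofReal_add hε3.le hε3.le, ← ENNReal.ofReal_add hε3.le (by positivity)]
          congr 1
          ring
  refine le_antisymm (ENNReal.le_of_forall_pos_le_add fun ε hε _ => ?_) zero_le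
  rw [zero_add]
  have := key ε (by exact_mod_cast hε)
  rwa [ENNReal.ofReal_coe_nnreal] at this

private theorem gad_g0_tg (D : Finset Ed) : gad (tg g0 D) g0 = tg g0 D := by
  show ((∅ ∆ bdy D) ∆ ∅, (∅ : Finset Ed) ∆ ∅) = ((∅ : Finset Vx) ∆ bdy D, (∅ : Finset Ed))
  ext <;> simp [Finset.mem_symmDiff]

private theorem gad_self (g : Gm) : gad g g = g0 := by
  show (g.1 ∆ g.1, g.2 ∆ g.2) = ((∅ : Finset Vx), (∅ : Finset Ed))
  ext <;> simp

private theorem rp_aO_aux (g : Gm) (z : Om) (i : Fin 3) : rp (aO g z) i = aV g (rp z i) := by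
  fin_cases i <;> rfl

/-- the same from any modification without exchanges -/
theorem barrier'_of (hR : IsR lam κ R) (D : Finset Ed)
    (h : R (Df 0 1 g0 \ Df 0 1 (tg g0 D)) = 0) :
    ∀ᵐ z ∂(R), (z ∈ Df 0 1 g0 ↔ z ∈ Df 0 1 (tg g0 D)) := by
  have hpre : aO (tg g0 D) ⁻¹' (Df 0 1 g0 \ Df 0 1 (tg g0 D)) =
      Df 0 1 (tg g0 D) \ Df 0 1 g0 := by
    ext z
    have e1 : ∀ i : Fin 3, uu (rp (aO (tg g0 D) z) i) g0 = uu (rp z i) (tg g0 D) := by
      intro i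
      rw [rp_aO_aux]
      show uu (rp z i) (gad (tg g0 D) g0) = _
      rw [gad_g0_tg]
    have e2 : ∀ i : Fin 3, uu (rp (aO (tg g0 D) z) i) (tg g0 D) = uu (rp z i) g0 := by
      intro i
      rw [rp_aO_aux]
      show uu (rp z i) (gad (tg g0 D) (tg g0 D)) = _
      rw [gad_self]
    simp only [Set.mem_preimage, Set.mem_sdiff, Df, Set.mem_ofPred_eq, e1, e2]
  have h2 : R (Df 0 1 (tg g0 D) \ Df 0 1 g0) = 0 := by
    rw [← hpre, (hR.act (tg g0 D)).measure_preimage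
      ((measurableSet_Df 0 1 g0).diff (measurableSet_Df 0 1 (tg g0 D))).nullMeasurableSet]
    exact h
  have a1 : ∀ᵐ z ∂(R), z ∉ Df 0 1 g0 \ Df 0 1 (tg g0 D) := measure_eq_zero_iff_ae_notMem.mp h
  have a2 : ∀ᵐ z ∂(R), z ∉ Df 0 1 (tg g0 D) \ Df 0 1 g0 := measure_eq_zero_iff_ae_notMem.mp h2
  filter_upwards [a1, a2] with z hz1 hz2
  constructor
  · intro hz
    by_contra hn
    exact hz1 ⟨hz, hn⟩
  · intro hz
    by_contra hn
    exact hz2 ⟨hz, hn⟩

end Pool.Agent.Helper40.MM
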